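import Pool.Agent.W982.TA.Stm2

/-!
Project TA (helper982), part S6: soundness of `triOK`.
-/

set_option autoImplicit false

namespace Pool.Agent.W982.TA

theorem s6_eqSeg (o x y a b : Pt) (h : eqSeg x y a b = true) :
    s(o + x, o + y) = s(o + a, o + b) := by
  unfold eqSeg at h
  rw [Bool.or_eq_true, Bool.and_eq_true, Bool.and_eq_true] at h
  simp only [decide_eq_true_eq] at h
  rcases h with ⟨h1, h2⟩ | ⟨h1, h2⟩
  · rw [h1, h2]
  · rw [h1, h2, Sym2.eq_swap]

theorem s6_dt (o a b c : Pt) : dt (o + a) (o + b) (o + c) = dt a b c := by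
  unfold dt
  simp only [Prod.fst_add, Prod.snd_add]
  ring

theorem s6_sub (o c u : Pt) : o + c - u = o + ((c.1 - u.1, c.2 - u.2) : Pt) := by
  ext
  · simp only [Prod.fst_add, Prod.fst_sub]; ring
  · simp only [Prod.snd_add, Prod.snd_sub]; ring

theorem s6_add (o c u : Pt) : o + c + u = o + ((c.1 + u.1, c.2 + u.2) : Pt) := by
  ext
  · simp only [Prod.fst_add]; ring
  · simp only [Prod.snd_add]; ring

theorem s6_core (o c u d v f w b c' a : Pt)
    (hbc : s(o + c - u, o + c + u) = s(o + b, o + c'))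
    (h : (eqSeg (d.1 - v.1, d.2 - v.2) (d.1 + v.1, d.2 + v.2) a c' &&
      eqSeg (f.1 - w.1, f.2 - w.2) (f.1 + w.1, f.2 + w.2) a b &&
      (decide (dt a b c' = 4) || decide (dt a b c' = -4))) = true) :
    ∃ a b c' : Pt, s(o + c - u, o + c + u) = s(b, c') ∧ s(o + d - v, o + d + v) = s(a, c') ∧
      s(o + f - w, o + f + w) = s(a, b) ∧ |dt a b c'| = 4 := by
  rw [Bool.and_eq_true, Bool.and_eq_true, Bool.or_eq_true] at h
  simp only [decide_eq_true_eq] at h
  obtain ⟨⟨h1, h2⟩, h3⟩ := h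
  refine ⟨o + a, o + b, o + c', hbc, ?_, ?_, ?_⟩
  · rw [s6_sub, s6_add]
    exact s6_eqSeg _ _ _ _ _ h1
  · rw [s6_sub o f w, s6_add o f w]
    exact s6_eqSeg _ _ _ _ _ h2
  · rw [s6_dt]
    rcases h3 with h3 | h3
    · rw [h3]; norm_num
    · rw [h3]; norm_num

theorem s6 : TaskS6 := by
  intro o c u d v f w h
  have e1 : s(o + c - u, o + c + u) =
      s(o + ((c.1 - u.1, c.2 - u.2) : Pt), o + ((c.1 + u.1, c.2 + u.2) : Pt)) := by
    rw [s6_sub, s6_add]
  have e2 : s(o + c - u, o + c + u) =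
      s(o + ((c.1 + u.1, c.2 + u.2) : Pt), o + ((c.1 - u.1, c.2 - u.2) : Pt)) := by
    rw [e1, Sym2.eq_swap]
  unfold triOK at h
  rw [Bool.or_eq_true, Bool.or_eq_true, Bool.or_eq_true] at h
  rcases h with ((h | h) | h) | h
  · exact s6_core o c u d v f w _ _ _ e1 h
  · exact s6_core o c u d v f w _ _ _ e1 h
  · exact s6_core o c u d v f w _ _ _ e2 h
  · exact s6_core o c u d v f w _ _ _ e2 h

end Pool.Agent.W982.TA
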